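import Pool.Agent.N139.MS.Stm

/-!
# Project MS (helper139), part TRIV: asymptotic homomorphisms are asymptotically trivial on `K`
(by helper692)
-/

set_option autoImplicit false

namespace Pool.Agent.N692.MS

open Filter Topology Matrix
open Pool.Agent.W661.RC (HasT Mt)
open Pool.Agent.N139.MS

noncomputable section

section norm

variable {d : ℕ}

lemma on_nonneg (A : Mt d) : 0 ≤ on A := norm_nonneg _

lemma on_zero : on (0 : Mt d) = 0 := by
  unfold on
  rw [map_zero, norm_zero]

lemma on_add (A B : Mt d) : on (A + B) ≤ on A + on B := by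
  unfold on
  rw [map_add]
  exact norm_add_le _ _

lemma on_neg (A : Mt d) : on (-A) = on A := by
  unfold on
  rw [map_neg, norm_neg]

lemma on_mul (A B : Mt d) : on (A * B) ≤ on A * on B := by
  unfold on
  rw [map_mul]
  exact norm_mul_le _ _

lemma on_unit (U : Matrix.unitaryGroup (Fin d) ℂ) : on U.val ≤ 1 := by
  unfold on
  have h1 : ‖Matrix.toEuclideanCLM (n := Fin d) (𝕜 := ℂ) U.val‖ ^ 2 ≤ 1 := by
    rw [sq, ← CStarRing.norm_star_mul_self, ← map_star, ← map_mul]
    have h2 : star U.val * U.val = 1 := (Matrix.mem_unitaryGroup_iff').1 U.2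
    rw [h2, map_one]
    exact ContinuousLinearMap.norm_id_le
  have h3 := norm_nonneg (Matrix.toEuclideanCLM (n := Fin d) (𝕜 := ℂ) U.val)
  nlinarith

end norm

/-- two sequences of unitary matrices are close -/
def cl {d : ℕ → ℕ} (A B : ∀ n, Matrix.unitaryGroup (Fin (d n)) ℂ) : Prop :=
  Tendsto (fun n => on ((A n).val - (B n).val)) atTop (𝓝 0)

section cl

variable {d : ℕ → ℕ} {A B C D : ∀ n, Matrix.unitaryGroup (Fin (d n)) ℂ}

lemma cl_refl (A : ∀ n, Matrix.unitaryGroup (Fin (d n)) ℂ) : cl A A := by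
  unfold cl
  simp only [sub_self, on_zero]
  exact tendsto_const_nhds

lemma cl_symm (h : cl A B) : cl B A := by
  unfold cl at h ⊢
  refine h.congr fun n => ?_
  rw [← on_neg, neg_sub]

lemma cl_trans (h : cl A B) (h' : cl B C) : cl A C := by
  unfold cl at h h' ⊢
  refine squeeze_zero (fun n => on_nonneg _) (fun n => ?_) (by simpa using h.add h')
  have h1 : (A n).val - (C n).val = ((A n).val - (B n).val) + ((B n).val - (C n).val) := by
    rw [sub_add_sub_cancel]
  rw [h1]
  exact on_add _ _

lemma cl_mul (h : cl A B) (h' : cl C D) : cl (fun n => A n * C n) (fun n => B n * D n) := by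
  unfold cl at h h' ⊢
  refine squeeze_zero (fun n => on_nonneg _) (fun n => ?_) (by simpa using h'.add h)
  have h1 : (A n * C n).val - (B n * D n).val = (A n).val * ((C n).val - (D n).val) +
      ((A n).val - (B n).val) * (D n).val := by
    rw [Submonoid.coe_mul, Submonoid.coe_mul, mul_sub, sub_mul, sub_add_sub_cancel]
  rw [h1]
  refine (on_add _ _).trans (add_le_add ?_ ?_)
  · refine (on_mul _ _).trans ?_
    have := mul_le_mul_of_nonneg_right (on_unit (A n)) (on_nonneg ((C n).val - (D n).val))
    rwa [one_mul] at this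
  · refine (on_mul _ _).trans ?_
    have := mul_le_mul_of_nonneg_left (on_unit (D n)) (on_nonneg ((A n).val - (B n).val))
    rwa [mul_one] at this

lemma cl_inv (h : cl A B) : cl (fun n => (A n)⁻¹) (fun n => (B n)⁻¹) := by
  have h1 := cl_mul (cl_mul (cl_refl fun n => (A n)⁻¹) (cl_symm h)) (cl_refl fun n => (B n)⁻¹)
  simp only [mul_assoc, mul_inv_cancel, mul_one, inv_mul_cancel_left] at h1
  exact h1

lemma cl_one (h : cl A (fun _ => 1)) :
    Tendsto (fun n => on ((A n).val - 1)) atTop (𝓝 0) := by
  unfold cl at h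
  refine h.congr fun n => ?_
  rw [OneMemClass.coe_one]

lemma one_cl (h : Tendsto (fun n => on ((A n).val - 1)) atTop (𝓝 0)) : cl A (fun _ => 1) := by
  unfold cl
  refine h.congr fun n => ?_
  rw [OneMemClass.coe_one]

end cl

theorem t_TRIV (hR : S_RIG) (hF : S_FG) : S_TRIV := by
  intro K G _ _ φ ι t hT hC hφ d f hf k
  obtain ⟨m, γ, hγ⟩ := hF K hT
  have hws : ∀ s : Fin m, ∃ w, γ w = φ (γ (FreeGroup.of s)) := fun s => hγ _
  choose ws hws using hws
  have f1 : ∀ g h : G, cl (fun n => f n (g * h)) (fun n => f n g * f n h) := hf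
  have f2 : cl (fun n => f n 1) (fun n => 1) := by
    have h1 := f1 1 1
    simp only [mul_one] at h1
    have h2 := cl_mul h1 (cl_refl fun n => (f n 1)⁻¹)
    simp only [mul_inv_cancel, mul_assoc, mul_one] at h2
    exact cl_symm h2
  have f3 : ∀ g : G, cl (fun n => (f n g)⁻¹) (fun n => f n g⁻¹) := by
    intro g
    have h1 := f1 g g⁻¹
    rw [mul_inv_cancel] at h1
    have h2 := cl_mul (cl_refl fun n => (f n g)⁻¹) (cl_trans (cl_symm f2) h1)
    simp only [mul_one, inv_mul_cancel_left] at h2
    exact h2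
  set U : ∀ n, Fin m → Matrix.unitaryGroup (Fin (d n)) ℂ :=
    fun n s => f n (ι (γ (FreeGroup.of s))) with hU
  have f4 : ∀ w : FreeGroup (Fin m),
      cl (fun n => FreeGroup.lift (U n) w) (fun n => f n (ι (γ w))) := by
    intro w
    induction w using FreeGroup.induction_on with
    | C1 =>
      simp only [map_one]
      exact cl_symm f2
    | of s =>
      simp only [FreeGroup.lift_apply_of]
      exact cl_refl _
    | inv_of s ih =>
      simp only [map_inv]
      exact cl_trans (cl_inv ih) (f3 _)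
    | mul x y hx hy =>
      simp only [map_mul]
      exact cl_trans (cl_mul hx hy) (cl_symm (f1 _ _))
  have hAH : AH γ atTop d U := by
    intro w hw
    have h1 := f4 w
    rw [hw, map_one] at h1
    exact cl_one (cl_trans h1 f2)
  have hTW : TW ws atTop d U (fun n => f n t) := by
    intro s
    have h1 : cl (fun n => (f n t)⁻¹ * U n s * f n t)
        (fun n => f n t⁻¹ * U n s * f n t) :=
      cl_mul (cl_mul (f3 t) (cl_refl _)) (cl_refl _)
    have h2 : cl (fun n => f n t⁻¹ * U n s * f n t)
        (fun n => f n (t⁻¹ * ι (γ (FreeGroup.of s)) * t)) :=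
      cl_symm (cl_trans (f1 _ _) (cl_mul (f1 _ _) (cl_refl _)))
    have h3 := cl_symm (f4 (ws s))
    rw [hws, hφ] at h3
    exact cl_trans (cl_trans h1 h2) h3
  have h5 := hR K m γ φ hT hγ hC ws hws atTop d U (fun n => f n t) hAH hTW
  obtain ⟨w, rfl⟩ := hγ k
  exact cl_one (cl_trans (cl_symm (f4 w)) (one_cl (h5 w)))

end

end Pool.Agent.N692.MS
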